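import Mathlib
import Pool.Agent.H93.Inv
import Pool.Agent.H93.ExD

set_option autoImplicit false

namespace Pool.Agent.Results.MP_3e9a14_an.Inverse

open Pool.Agent.H93 RecDefs

/-- The recurrence property given by the family F passes to inverses on all F-spaces. -/
def Passes (F : Set ℕ → Prop) : Prop :=
  ∀ (𝕜 : Type) [RCLike 𝕜] (X : Type) [AddCommGroup X] [Module 𝕜 X] [TopologicalSpace X]
    [IsTopologicalAddGroup X] [ContinuousSMul 𝕜 X]
    [TopologicalSpace.IsCompletelyMetrizableSpace X] (T : X ≃L[𝕜] X),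
    Dense (Rec F T) → Dense (Rec F T.symm)

/-- A counterexample on a real Banach space. -/
def Fails (F : Set ℕ → Prop) : Prop :=
  ∃ (X : Type) (_ : NormedAddCommGroup X) (_ : NormedSpace ℝ X) (_ : CompleteSpace X)
    (T : X ≃L[ℝ] X), Dense (Rec F T) ∧ ¬ Dense (Rec F T.symm)

theorem result : Passes BanPos ∧ Fails UpPos ∧ Fails LowPos ∧ Passes Synd ∧ Passes IPStar ∧
    Passes DeltaStar := by
  refine ⟨?_, ⟨ExD.pU.S.X, inferInstance, inferInstance, inferInstance, _, ExD.exU⟩,
    ⟨ExD.pF.S.X, inferInstance, inferInstance, inferInstance, _, ExD.exF⟩, ?_, ?_, ?_⟩ <;>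
  intro 𝕜 _ X _ _ _ _ _ _ T h <;>
  let _ := TopologicalSpace.upgradeIsCompletelyMetrizable X
  · exact Dense.of_closure (h.mono fun x hx => UF.inv_ban (T := T.toHomeomorph) hx)
  · exact h.mono fun x hx => UF.inv_synd (T := T.toHomeomorph) hx
  · exact h.mono fun x hx => UF.inv_ip (T := T.toHomeomorph) hx
  · exact h.mono fun x hx => UF.inv_delta (T := T.toHomeomorph) hx

end Pool.Agent.Results.MP_3e9a14_an.Inverse
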